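import Pool.Agent.Helper377.DivLimitInst
import Pool.Agent.K1H76.DK.Stm
import Pool.Agent.K1H76.DK.Asm
import Pool.Agent.K1H66.DK.Up
import Pool.Agent.K1H67.DK.Pr
import Pool.Agent.K1H95.DK.LOW
import Pool.Agent.K1H21.DK.LCM
import Pool.Agent.K1H9.DK.Fac
import Pool.Agent.K1H68.DK.Mer
import Pool.Agent.K1H43.DK.Prod
import Pool.Agent.K1H98.DK.NUM

/-!
# Erdős: largest subsets of `[1, n]` with no member divisible by `k` others, for large `k`

`F_k(n) ~ c_k n` (starting file `LimitFormula`).  Here: `-log (1 - c_k) ~ log k log log k / log 2`.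

Upper bound for `c_k`: if `t` has more than `k` divisors, then for every `u ≤ n/t` coprime to `t` one of the numbers
`u d`, `d ∣ t`, is missing; `t` is a primorial.  Lower bound: the integers in `(n/Y, n]` with at most `k` divisors
`≤ Y` form an admissible set; their number is estimated by the `m`-th moment of the number of divisors `≤ Y`.
-/

set_option autoImplicit false

open Finset Filter Topology

namespace Pool.Agent.Results.MP_573265_nt.LargeK

/-- every element of `A` is a multiple of fewer than `k` other elements of `A` -/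
def Admissible (k : ℕ) (A : Finset ℕ) : Prop :=
  ∀ a ∈ A, (A.filter (fun b => b ≠ a ∧ b ∣ a)).card < k

open Classical in
/-- the largest cardinality of a `k`-admissible subset of `[1, n]` -/
noncomputable def F (k n : ℕ) : ℕ :=
  ((Icc 1 n).powerset.filter (fun A => Admissible k A)).sup Finset.card

theorem result : ∃ c : ℕ → ℝ,
    (∀ k : ℕ, Tendsto (fun n : ℕ => (F k n : ℝ) / n) atTop (𝓝 (c k))) ∧
    Tendsto (fun k : ℕ => -Real.log (1 - c k) / (Real.log k * Real.log (Real.log k))) atTop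
      (𝓝 (1 / Real.log 2)) ∧
    (∀ k t : ℕ, 1 ≤ t → k < t.divisors.card → (t.totient : ℝ) / (t : ℝ) ^ 2 ≤ 1 - c k) ∧
    ∀ k m Y : ℕ, 1 ≤ k → 1 ≤ Y → 1 - c k ≤ 1 / Y +
      (∑ j ∈ Fintype.piFinset (fun _ : Fin m => Icc 1 Y), (1 : ℝ) / ((univ.lcm j : ℕ) : ℝ)) / (k : ℝ) ^ m := by
  have hlim : ∀ k : ℕ, ∃ L : ℝ, Tendsto (fun n : ℕ => (Pool.Agent.K1H76.DK.F k n : ℝ) / n) atTop (𝓝 L) := by
    intro k
    obtain ⟨L, h1, -⟩ := Pool.Agent.Helper377.DivLimit.limit (Pool.Agent.Helper377.DivLimit.good_mulK k)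
    exact ⟨L, h1⟩
  choose c hc using hlim
  have hUP := Pool.Agent.K1H66.DK.t_UP
  have hLOW := Pool.Agent.K1H95.DK.t_LOW
  have hPROD := Pool.Agent.K1H43.DK.t_PROD Pool.Agent.K1H21.DK.t_LCM Pool.Agent.K1H9.DK.t_FAC Pool.Agent.K1H68.DK.t_MER
  refine ⟨c, hc, Pool.Agent.K1H76.DK.t_ASM c ?_, fun k t ht hk => hUP k t (c k) ht hk (hc k),
    fun k m Y hk hY => hLOW k m Y (c k) hk hY (hc k)⟩
  intro ε hε hε1
  obtain ⟨k₁, hk₁⟩ := Pool.Agent.K1H67.DK.t_PR ε hε
  obtain ⟨C, hC, hM⟩ := hPROD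
  obtain ⟨k₂, hk₂⟩ := Pool.Agent.K1H98.DK.t_NUM C hC ε hε hε1
  refine ⟨max (max k₁ k₂) 1, fun k hk => ⟨?_, ?_⟩⟩
  · obtain ⟨t, ht, htk, hte⟩ := hk₁ k (by omega)
    exact hte.trans (hUP k t (c k) ht htk (hc k))
  · obtain ⟨m, Y, hm, hY, hmY⟩ := hk₂ k (by omega)
    have h1 := hLOW k m Y (c k) (by omega) (by omega) (hc k)
    have h2 := hM m Y hm hY
    have hk0 : (0 : ℝ) < (k : ℝ) ^ m := by
      have : (0 : ℝ) < k := by exact_mod_cast (by omega : 0 < k)
      positivity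
    have h3 := div_le_div_of_nonneg_right h2 hk0.le
    linarith

end Pool.Agent.Results.MP_573265_nt.LargeK
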